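import Pool.Agent.MP_09c87f_nt.Final

/-!
An effective bound for the exceptional pairs of `a ^ x + b ^ y = c ^ z`, for every prime
`c = 2 ^ r * q + 1` with `q, r ≥ 1`, that is, for every odd prime `c`.
The bound is `B_q(r) = (2 ^ r * q + 1) ^ ((2 ^ r * q + 1) ^ 1000)`.
-/

namespace Pool.Agent.Results.MP_09c87f_nt.EffectiveBound

open Pool.Agent.MP_09c87f_nt

theorem result (q r : ℕ) (hq : 1 ≤ q) (hr : 1 ≤ r) (hc : (2 ^ r * q + 1).Prime)
    (a b : ℕ) (h : Exceptional a b (2 ^ r * q + 1)) :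
    max a b ≤ (2 ^ r * q + 1) ^ ((2 ^ r * q + 1) ^ 1000) := by
  apply exceptional_bound _ a b hc _ h
  have h1 : 2 ≤ 2 ^ r := Nat.le_self_pow (by omega) 2
  have h2 : 2 * 1 ≤ 2 ^ r * q := Nat.mul_le_mul h1 hq
  omega

end Pool.Agent.Results.MP_09c87f_nt.EffectiveBound
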